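import Pool.Agent.TH198.AT.Conv

/-!
# The largest solution of the fixed point equation exists
-/

set_option autoImplicit false

open MeasureTheory ProbabilityTheory Set Filter Topology

namespace Pool.TH952.AT

open Pool.TH198.AT

theorem tanh_sq_le (x : ℝ) : Real.tanh x ^ 2 ≤ 1 := by
  have h := Real.cosh_sq x
  have hc : 0 < Real.cosh x := Real.cosh_pos x
  rw [Real.tanh_eq_sinh_div_cosh, div_pow, div_le_one (by positivity)]
  linarith

theorem cont_tanh : Continuous Real.tanh := by
  have : Real.tanh = fun x => Real.sinh x / Real.cosh x := by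
    funext x; exact Real.tanh_eq_sinh_div_cosh x
  rw [this]
  exact Real.continuous_sinh.div Real.continuous_cosh fun x => (Real.cosh_pos x).ne'

theorem cont_G (β h : ℝ) :
    Continuous fun p : ℝ => E1 (fun z => Real.tanh (β * z * √(2 * p) + h) ^ 2) := by
  unfold E1
  refine continuous_of_dominated (bound := fun _ => (1 : ℝ)) ?_ ?_ (integrable_const _) ?_
  · intro p
    refine Continuous.aestronglyMeasurable ?_
    have := cont_tanh
    fun_prop
  · intro p
    refine Eventually.of_forall fun z => ?_
    rw [Real.norm_eq_abs, abs_of_nonneg (sq_nonneg _)]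
    exact tanh_sq_le _
  · refine Eventually.of_forall fun z => ?_
    have := cont_tanh
    fun_prop

theorem G_nonneg (β h p : ℝ) :
    0 ≤ E1 (fun z => Real.tanh (β * z * √(2 * p) + h) ^ 2) := by
  unfold E1
  exact integral_nonneg fun z => sq_nonneg _

theorem G_le (β h p : ℝ) :
    E1 (fun z => Real.tanh (β * z * √(2 * p) + h) ^ 2) ≤ 1 := by
  unfold E1
  have h1 := norm_integral_le_of_norm_le_const (μ := gaussianReal 0 1)
    (f := fun z => Real.tanh (β * z * √(2 * p) + h) ^ 2) (C := 1)
    (Eventually.of_forall fun z => by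
      rw [Real.norm_eq_abs, abs_of_nonneg (sq_nonneg _)]
      exact tanh_sq_le _)
  rw [probReal_univ, mul_one] at h1
  exact (le_abs_self _).trans h1

theorem t_GREAT : St_GREAT := by
  intro β h _
  set G : ℝ → ℝ := fun p => E1 (fun z => Real.tanh (β * z * √(2 * p) + h) ^ 2) with hG
  have hc : Continuous G := cont_G β h
  have hcl : IsCompact {p : ℝ | p ∈ Icc (0 : ℝ) 1 ∧ p = G p} := by
    have h1 : {p : ℝ | p ∈ Icc (0 : ℝ) 1 ∧ p = G p} = Icc (0 : ℝ) 1 ∩ {p | p = G p} := rfl
    rw [h1]
    exact isCompact_Icc.inter_right (isClosed_eq continuous_id hc)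
  obtain ⟨c, hc1, hc2⟩ := exists_mem_Icc_isFixedPt (f := G) hc.continuousOn zero_le_one
    (G_nonneg β h 0) (G_le β h 1)
  exact hcl.exists_isGreatest ⟨c, hc1, hc2.symm⟩

end Pool.TH952.AT
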